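import Pool.Agent.R811.Plat.IsoAt

/-!
# Highly twisted plats which do not realise the crossing number

Sliced link diagrams and their isotopies are defined in `Pool.Agent.Helper454.Kauf.Defs`.
-/

set_option autoImplicit false

namespace Pool.Agent.Results.MP_b23894_gt.NonalternatingCorner

open Pool.Agent.Helper454.Kauf Pool.Agent.R811.Plat
open Pool.Agent.Helper454.Kauf.Piece (birth death pos neg)

/-- The braid diagram `σ_j ^ e`: `|e|` crossings of the strands `j` and `j+1` (the strands being
numbered `1, 2, ...` from left to right). -/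
def power (j : ℕ) (e : ℤ) : Word :=
  List.replicate e.natAbs (if 0 < e then pos (j - 1) else neg (j - 1))

/-- The word `b_i = σ_2^{-a_1} σ_4^{-a_2} ... σ_{2m-2}^{-a_{m-1}}` (`i` odd) or
`b_i = σ_1^{-a_1} σ_3^{-a_2} ... σ_{2m-1}^{-a_m}` (`i` even). -/
def row (m i : ℕ) (a : ℕ → ℤ) : Word :=
  if Odd i then (List.range (m - 1)).flatMap fun k => power (2 * (k + 1)) (-a (k + 1))
  else (List.range m).flatMap fun k => power (2 * (k + 1) - 1) (-a (k + 1))

/-- The word `b_1 b_2 ... b_n` in standard form of width `m` and height `n` with the exponents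
`a i j`. -/
def standardForm (m n : ℕ) (a : ℕ → ℕ → ℤ) : Word :=
  (List.range n).flatMap fun i => row m (i + 1) (a (i + 1))

/-- The plat closure of a braid diagram on `2m` strands. -/
def plat (m : ℕ) (b : Word) : Word :=
  (List.range m).map (fun k => birth (2 * k)) ++ b ++
    (List.range m).reverse.map (fun k => death (2 * k))

/-- The word in standard form is `c`-highly twisted: `|a i j| ≥ c` for all its exponents. -/
def HighlyTwisted (c m n : ℕ) (a : ℕ → ℕ → ℤ) : Prop :=
  ∀ i j, 1 ≤ i → i ≤ n → 1 ≤ j → j ≤ (if Odd i then m - 1 else m) → c ≤ (a i j).natAbs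

/-- The number of crossings of a diagram. -/
def crossings (w : Word) : ℕ :=
  w.countP fun p => match p with
    | pos _ => true
    | neg _ => true
    | _ => false

/-- The crossing number of the link with the diagram `D`. -/
noncomputable def crossingNumber (D : Word) : ℕ :=
  sInf {k | ∃ E, Closed E ∧ Isotopic D E ∧ crossings E = k}

theorem crossings_append (u v : Word) : crossings (u ++ v) = crossings u + crossings v :=
  List.countP_append

theorem crossings_replicate (s : Bool) (i k : ℕ) :
    crossings (List.replicate k (cr s i)) = k := by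
  induction k with
  | zero => rfl
  | succ k ih =>
    have : List.replicate (k + 1) (cr s i) = List.replicate k (cr s i) ++ [cr s i] :=
      List.replicate_succ'
    rw [this, crossings_append, ih]
    cases s <;> rfl

theorem power_eq (j : ℕ) (e : ℤ) :
    power j e = List.replicate e.natAbs (cr (decide (0 < e)) (j - 1)) := by
  unfold power cr
  by_cases h : 0 < e <;> simp [h]

theorem crossings_power (j : ℕ) (e : ℤ) : crossings (power j e) = e.natAbs := by
  rw [power_eq, crossings_replicate]

theorem crossings_flatMap (f : ℕ → Word) (n : ℕ) :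
    crossings ((List.range n).flatMap f) = ∑ i ∈ Finset.range n, crossings (f i) := by
  induction n with
  | zero => rfl
  | succ n ih =>
    rw [List.range_succ, List.flatMap_append, crossings_append, ih, Finset.sum_range_succ]
    simp

theorem crossings_row (m i : ℕ) (a : ℕ → ℤ) :
    crossings (row m i a) =
      ∑ j ∈ Finset.range (if Odd i then m - 1 else m), (a (j + 1)).natAbs := by
  unfold row
  split_ifs with h
  · rw [crossings_flatMap]
    simp [crossings_power]
  · rw [crossings_flatMap]
    simp [crossings_power]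

theorem crossings_plat (m : ℕ) (b : Word) : crossings (plat m b) = crossings b := by
  have h1 : crossings ((List.range m).map fun k => birth (2 * k)) = 0 := by
    unfold crossings
    rw [List.countP_eq_zero]
    intro p hp
    rw [List.mem_map] at hp
    obtain ⟨k, -, rfl⟩ := hp
    simp
  have h2 : crossings ((List.range m).reverse.map fun k => death (2 * k)) = 0 := by
    unfold crossings
    rw [List.countP_eq_zero]
    intro p hp
    rw [List.mem_map] at hp
    obtain ⟨k, -, rfl⟩ := hp
    simp
  unfold plat
  rw [crossings_append, crossings_append, h1, h2]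
  omega

theorem crossings_standardForm (m n : ℕ) (a : ℕ → ℕ → ℤ) :
    crossings (plat m (standardForm m n a)) = ∑ i ∈ Finset.range n,
      ∑ j ∈ Finset.range (if Odd (i + 1) then m - 1 else m), (a (i + 1) (j + 1)).natAbs := by
  rw [crossings_plat]
  unfold standardForm
  rw [crossings_flatMap]
  simp only [crossings_row]

theorem width_crossings {w : Word} {N : ℕ} (h : ∀ p ∈ w, ∃ s i, p = cr s i ∧ i + 2 ≤ N) :
    width w N = some N := by
  induction w with
  | nil => rfl
  | cons p w ih =>
    obtain ⟨s, i, rfl, hi⟩ := h p (by simp)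
    exact width_cons (cr_width hi) (ih fun q hq => h q (by simp [hq]))

theorem mem_power {j : ℕ} {e : ℤ} {p : Piece} (h : p ∈ power j e) : ∃ s, p = cr s (j - 1) := by
  rw [power_eq] at h
  exact ⟨_, List.eq_of_mem_replicate h⟩

theorem mem_row {m i : ℕ} {a : ℕ → ℤ} {p : Piece} (h : p ∈ row m i a) :
    ∃ s j, p = cr s j ∧ j + 2 ≤ 2 * m := by
  unfold row at h
  split_ifs at h
  · rw [List.mem_flatMap] at h
    obtain ⟨k, hk, h⟩ := h
    rw [List.mem_range] at hk
    obtain ⟨s, rfl⟩ := mem_power h
    exact ⟨s, _, rfl, by omega⟩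
  · rw [List.mem_flatMap] at h
    obtain ⟨k, hk, h⟩ := h
    rw [List.mem_range] at hk
    obtain ⟨s, rfl⟩ := mem_power h
    exact ⟨s, _, rfl, by omega⟩

theorem width_births (m : ℕ) :
    width ((List.range m).map fun k => birth (2 * k)) 0 = some (2 * m) := by
  induction m with
  | zero => rfl
  | succ m ih =>
    rw [List.range_succ, List.map_append]
    refine width_append_some ih ?_
    simp [width, Piece.width]
    omega

theorem width_deaths (m : ℕ) :
    width ((List.range m).reverse.map fun k => death (2 * k)) (2 * m) = some 0 := by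
  induction m with
  | zero => rfl
  | succ m ih =>
    rw [List.range_succ, List.reverse_append]
    simp only [List.reverse_cons, List.reverse_nil, List.nil_append, List.cons_append,
      List.map_cons]
    refine width_cons (k := 2 * m) ?_ ih
    have : 2 * m + 2 ≤ 2 * (m + 1) := by omega
    simp only [Piece.width]
    rw [if_pos this]
    congr 1

/-- The reduction: if the corner is not alternating, one crossing can be removed. -/
theorem reduction (m n : ℕ) (a : ℕ → ℕ → ℤ) (ha : 0 < a 1 1 * a 2 1) :
    ∃ E, Closed E ∧ Isotopic (plat (m + 2) (standardForm (m + 2) (n + 2) a)) E ∧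
      crossings E + 1 = crossings (plat (m + 2) (standardForm (m + 2) (n + 2) a)) := by
  -- the pieces of the diagram
  set rB : Word := ((List.range m).map fun k => birth (2 * (k + 2))) with hrB
  set r1 : Word := ((List.range m).flatMap fun k => power (2 * (k + 2)) (-a 1 (k + 2))) with hr1
  set r2 : Word := ((List.range (m + 1)).flatMap fun k =>
    power (2 * (k + 2) - 1) (-a 2 (k + 2))) with hr2
  set r3 : Word := ((List.range n).flatMap fun i => row (m + 2) (i + 3) (a (i + 3))) with hr3
  set dd : Word := ((List.range (m + 2)).reverse.map fun k => death (2 * k)) with hdd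
  have h11 : a 1 1 ≠ 0 := by
    rintro h
    rw [h, zero_mul] at ha
    exact lt_irrefl _ ha
  have h21 : a 2 1 ≠ 0 := by
    rintro h
    rw [h, mul_zero] at ha
    exact lt_irrefl _ ha
  obtain ⟨k, hk⟩ : ∃ k, (a 1 1).natAbs = k + 1 := ⟨(a 1 1).natAbs - 1, by omega⟩
  obtain ⟨l, hl⟩ : ∃ l, (a 2 1).natAbs = l + 1 := ⟨(a 2 1).natAbs - 1, by omega⟩
  obtain ⟨s, hs1, hs2⟩ : ∃ s : Bool, decide (0 < -a 1 1) = s ∧ decide (0 < -a 2 1) = s := by
    refine ⟨decide (0 < -a 1 1), rfl, ?_⟩
    rcases mul_pos_iff.1 ha with ⟨p, q⟩ | ⟨p, q⟩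
    · rw [decide_eq_false (by omega), decide_eq_false (by omega)]
    · rw [decide_eq_true (by omega), decide_eq_true (by omega)]
  have hB : ((List.range (m + 2)).map fun k => birth (2 * k)) = [birth 0, birth 2] ++ rB := by
    rw [List.range_succ_eq_map, List.range_succ_eq_map]
    simp [hrB, Function.comp_def]
  have hR1 : row (m + 2) 1 (a 1) = List.replicate (k + 1) (cr s 1) ++ r1 := by
    unfold row
    rw [if_pos (by decide), show m + 2 - 1 = m + 1 by omega, List.range_succ_eq_map,
      List.flatMap_cons, List.flatMap_map]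
    congr 1
    rw [power_eq]
    simp only [zero_add]
    rw [hs1, Int.natAbs_neg, hk]
  have hR2 : row (m + 2) 2 (a 2) = List.replicate (l + 1) (cr s 0) ++ r2 := by
    unfold row
    rw [if_neg (by decide), List.range_succ_eq_map, List.flatMap_cons, List.flatMap_map]
    congr 1
    rw [power_eq]
    simp only [zero_add]
    rw [hs2, Int.natAbs_neg, hl]
  have hD : plat (m + 2) (standardForm (m + 2) (n + 2) a) =
      [birth 0, birth 2] ++ rB ++ ((List.replicate (k + 1) (cr s 1) ++ r1) ++
        ((List.replicate (l + 1) (cr s 0) ++ r2) ++ r3)) ++ dd := by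
    unfold plat standardForm
    rw [hB, List.range_succ_eq_map, List.flatMap_cons, List.flatMap_map,
      List.range_succ_eq_map, List.flatMap_cons, List.flatMap_map]
    simp only [zero_add, Nat.succ_eq_add_one, Nat.reduceAdd]
    rw [hR1, hR2]
  -- widths
  have w1 : width rB 4 = some (2 * (m + 2)) := by
    have := width_births (m + 2)
    rw [hB, width_append] at this
    exact this
  have w2 : width r1 (2 * (m + 2)) = some (2 * (m + 2)) := by
    apply width_crossings
    intro p hp
    rw [hr1, List.mem_flatMap] at hp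
    obtain ⟨j, hj, hp⟩ := hp
    rw [List.mem_range] at hj
    obtain ⟨s, rfl⟩ := mem_power hp
    exact ⟨s, _, rfl, by omega⟩
  have w3 : width r2 (2 * (m + 2)) = some (2 * (m + 2)) := by
    apply width_crossings
    intro p hp
    rw [hr2, List.mem_flatMap] at hp
    obtain ⟨j, hj, hp⟩ := hp
    rw [List.mem_range] at hj
    obtain ⟨s, rfl⟩ := mem_power hp
    exact ⟨s, _, rfl, by omega⟩
  have w4 : width r3 (2 * (m + 2)) = some (2 * (m + 2)) := by
    apply width_crossings
    intro p hp
    rw [hr3, List.mem_flatMap] at hp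
    obtain ⟨j, hj, hp⟩ := hp
    exact mem_row hp
  have w5 : width dd (2 * (m + 2)) = some 0 := width_deaths (m + 2)
  have w6 : width (List.replicate l (cr s 0) ++ r2 ++ r3 ++ dd) (2 * (m + 2)) = some 0 :=
    width_append_some (width_append_some (width_append_some
      (width_replicate (by omega) l) w3) w4) w5
  have w7 : width (rB ++ r1) 4 = some (2 * (m + 2)) := width_append_some w1 w2
  have i1 : ∀ q ∈ rB ++ r1, 0 + 2 ≤ q.index := by
    intro q hq
    rw [List.mem_append] at hq
    rcases hq with hq | hq
    · rw [hrB, List.mem_map] at hq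
      obtain ⟨j, -, rfl⟩ := hq
      simp only [Piece.index]
      omega
    · rw [hr1, List.mem_flatMap] at hq
      obtain ⟨j, -, hq⟩ := hq
      obtain ⟨s, rfl⟩ := mem_power hq
      rw [cr_index]
      omega
  have i2 : ∀ q ∈ rB, 1 + 2 ≤ q.index := by
    intro q hq
    rw [hrB, List.mem_map] at hq
    obtain ⟨j, -, rfl⟩ := hq
    simp only [Piece.index]
    omega
  -- the isotopy
  have s1 : IsoAt 4 (rB ++ List.replicate (k + 1) (cr s 1))
      (List.replicate (k + 1) (cr s 1) ++ rB) :=
    commute_replicate i2 (by omega) w1 (k + 1)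
  have s2 : IsoAt 4 ((rB ++ r1) ++ [cr s 0]) ([cr s 0] ++ (rB ++ r1)) :=
    (commute i1 (by omega) w7).2
  have s3 : IsoAt 4 ((rB ++ List.replicate (k + 1) (cr s 1)) ++ (r1 ++ [cr s 0]))
      ((List.replicate (k + 1) (cr s 1) ++ rB) ++ (r1 ++ [cr s 0])) :=
    s1.right (k := 2 * (m + 2)) (width_append_some w1 (width_replicate (by omega) _))
      (width_append_some w2 (width_cr (by omega)))
  have s4 : IsoAt 4 (List.replicate (k + 1) (cr s 1) ++ ((rB ++ r1) ++ [cr s 0]))
      (List.replicate (k + 1) (cr s 1) ++ ([cr s 0] ++ (rB ++ r1))) :=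
    IsoAt.left (width_replicate (by omega) _) s2
  have s5 : IsoAt 4 (rB ++ List.replicate (k + 1) (cr s 1) ++ r1 ++ [cr s 0])
      (List.replicate (k + 1) (cr s 1) ++ [cr s 0] ++ rB ++ r1) := by
    simp only [List.append_assoc] at s3 s4 ⊢
    exact s3.trans s4
  have s6 : IsoAt 0 ([birth 0, birth 2] ++ (rB ++ List.replicate (k + 1) (cr s 1) ++ r1 ++
      [cr s 0])) ([birth 0, birth 2] ++ (List.replicate (k + 1) (cr s 1) ++ [cr s 0] ++ rB ++
      r1)) := IsoAt.left (k := 4) rfl s5
  have s7 : IsoAt 0 (([birth 0, birth 2] ++ List.replicate (k + 1) (cr s 1) ++ [cr s 0]) ++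
      (rB ++ r1)) (([birth 0, birth 1] ++ List.replicate k (cr s 0) ++ [cr (!s) 1]) ++
      (rB ++ r1)) :=
    (corner s k).right (k := 4) (width_append_some (width_append_some (k := 4) rfl
      (width_replicate (by omega) _)) (width_cr (by omega))) w7
  have s8 : IsoAt 0 ([birth 0, birth 2] ++ rB ++ List.replicate (k + 1) (cr s 1) ++ r1 ++
      [cr s 0]) (([birth 0, birth 1] ++ List.replicate k (cr s 0) ++ [cr (!s) 1]) ++
      (rB ++ r1)) := by
    simp only [List.append_assoc] at s6 s7 ⊢
    exact s6.trans s7
  have w8 : width ([birth 0, birth 2] ++ rB ++ List.replicate (k + 1) (cr s 1) ++ r1 ++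
      [cr s 0]) 0 = some (2 * (m + 2)) :=
    width_append_some (width_append_some (width_append_some (width_append_some (k := 4) rfl w1)
      (width_replicate (by omega) _)) w2) (width_cr (by omega))
  have s9 := s8.right w8 w6
  refine ⟨(([birth 0, birth 1] ++ List.replicate k (cr s 0) ++ [cr (!s) 1]) ++
      (rB ++ r1)) ++ (List.replicate l (cr s 0) ++ r2 ++ r3 ++ dd), ?_, ?_, ?_⟩
  · exact s9.width_eq (width_append_some w8 w6)
  · obtain ⟨k', h1, -, h3⟩ := s9
    have h4 : k' = 0 := by
      rw [width_append_some w8 w6] at h1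
      exact (Option.some.inj h1).symm
    subst h4
    have h5 := h3 [] [] rfl rfl
    rw [hD, List.replicate_succ (n := l)]
    simp only [List.append_nil, List.nil_append, List.append_assoc, List.cons_append] at h5 ⊢
    exact h5
  · rw [hD]
    simp only [crossings_append, crossings_replicate]
    have c1 : crossings [birth 0, birth 1] = 0 := rfl
    have c2 : crossings [birth 0, birth 2] = 0 := rfl
    have c3 : crossings [cr (!s) 1] = 1 := by cases s <;> rfl
    rw [c1, c2, c3]
    omega

/-- For all `m ≥ 4` and all odd `n ≥ 3` there are 4-highly twisted words in standard form of width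
`m` and height `n` for which the exponents `a_{1,1}` and `a_{2,1}` have the same sign, and for every
one of them the number of crossings of the plat closure, which is the sum of the `|a_{i,j}|`, is
larger than the crossing number of the link. -/
theorem result (m n : ℕ) (hm : 4 ≤ m) (_hn : Odd n) (hn3 : 3 ≤ n) :
    (∃ a, HighlyTwisted 4 m n a ∧ 0 < a 1 1 * a 2 1) ∧
    ∀ a, HighlyTwisted 4 m n a → 0 < a 1 1 * a 2 1 →
      crossings (plat m (standardForm m n a)) = ∑ i ∈ Finset.range n,
        ∑ j ∈ Finset.range (if Odd (i + 1) then m - 1 else m), (a (i + 1) (j + 1)).natAbs ∧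
      crossingNumber (plat m (standardForm m n a)) < crossings (plat m (standardForm m n a)) := by
  refine ⟨⟨fun _ _ => 4, ?_, by norm_num⟩, fun a _ ha => ⟨crossings_standardForm m n a, ?_⟩⟩
  · intro i j _ _ _ _
    show (4 : ℕ) ≤ (4 : ℤ).natAbs
    norm_num
  · obtain ⟨m, rfl⟩ : ∃ m', m = m' + 2 := ⟨m - 2, by omega⟩
    obtain ⟨n, rfl⟩ : ∃ n', n = n' + 2 := ⟨n - 2, by omega⟩
    obtain ⟨E, h1, h2, h3⟩ := reduction m n a ha
    have h4 : crossingNumber (plat (m + 2) (standardForm (m + 2) (n + 2) a)) ≤ crossings E :=
      Nat.sInf_le ⟨E, h1, h2, rfl⟩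
    omega

end Pool.Agent.Results.MP_b23894_gt.NonalternatingCorner
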